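import Pool.Agent.H95.Alu

set_option autoImplicit false
open Pool.Agent.H95.AluDefs

universe u

theorem Pool.Agent.Results.MP_a9e7a9_an.Fixed.result
    (H : Type u) [NormedAddCommGroup H] [InnerProductSpace ℂ H] [CompleteSpace H] :
    FixedQuasiNormal (H →L[ℂ] H) :=
  Pool.Agent.H95.Alu.main
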